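import Pool.Agent.Helper54.S4.Stmts

/-! Realizability of simplicial 4-polytopes (MP_308581_lc): keys of the second lifting. -/

namespace Pool.Agent.Helper54.S4

open Finset Pool.Agent.Helper54.SP

theorem rb4_up (Γ : List Gt) (nw p : ℕ) (h3 : 3 ≤ p) (hN : p < N4 Γ) (hl : 2 ≤ la p) :
    rb Γ nw p = 2 + lv Γ nw p := by
  unfold rb
  rw [if_neg (by omega), if_neg (by omega), if_neg (by omega), if_neg (by omega),
    if_neg (by omega), if_pos hl]

theorem rb4_lo (Γ : List Gt) (nw p : ℕ) (h3 : 3 ≤ p) (hN : p < N4 Γ) (hl : la p < 2) :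
    rb Γ nw p = 2 + 2 * B4 Γ nw - lv Γ nw p := by
  unfold rb
  rw [if_neg (by omega), if_neg (by omega), if_neg (by omega), if_neg (by omega),
    if_neg (by omega), if_neg (by omega)]

theorem rb4_N1 (Γ : List Gt) (nw : ℕ) : rb Γ nw (N4 Γ + 1) = 4 + 2 * B4 Γ nw := by
  unfold rb; rw [if_pos rfl]

theorem rb4_N (Γ : List Gt) (nw : ℕ) : rb Γ nw (N4 Γ) = 0 := by
  unfold rb; rw [if_neg (by omega), if_pos rfl]

theorem rb4_N3 (Γ : List Gt) : 3 ≤ N4 Γ := by
  unfold N4; omega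

theorem rb4_1 (Γ : List Gt) (nw : ℕ) : rb Γ nw 1 = 1 := by
  have := rb4_N3 Γ
  unfold rb; rw [if_neg (by omega), if_neg (by omega), if_pos rfl]

theorem rb4_0 (Γ : List Gt) (nw : ℕ) : rb Γ nw 0 = 3 + 2 * B4 Γ nw := by
  have := rb4_N3 Γ
  unfold rb; rw [if_neg (by omega), if_neg (by omega), if_neg (by omega), if_pos rfl]

theorem rb4_2 (Γ : List Gt) (nw : ℕ) : rb Γ nw 2 = 2 + 2 * B4 Γ nw := by
  have := rb4_N3 Γ
  unfold rb; rw [if_neg (by omega), if_neg (by omega), if_neg (by omega), if_neg (by omega),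
    if_pos rfl]

theorem rb4_lv0 (Γ : List Gt) (nw : ℕ) : lv Γ nw 0 = B4 Γ nw := by
  unfold lv; rw [if_pos rfl]

theorem st_RB4 (h1 : ST_PT4) (h2 : ST_WI4) (h3 : ST_LV4) : ST_RB4 := by
  intro Γ nw hWF
  obtain ⟨P1, P2, P3, P4, P5, P6, P7⟩ := h1
  obtain ⟨L1, L2, L3, L4, L5, L6⟩ := h3 Γ nw hWF
  have hW := h2 Γ nw hWF
  have hN3 := rb4_N3 Γ
  have e0 := rb4_0 Γ nw
  have e1 := rb4_1 Γ nw
  have e2 := rb4_2 Γ nw
  have eN := rb4_N Γ nw
  have eN1 := rb4_N1 Γ nw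
  have l0 := rb4_lv0 Γ nw
  -- bounds of levels of points
  have hb : ∀ p, 3 ≤ p → p < N4 Γ → 0 < lv Γ nw p ∧ lv Γ nw p < B4 Γ nw := by
    intro p hp hpN
    exact ⟨L2 p hp hpN, by have := L1 p hpN (by omega); omega⟩
  -- summary
  have hs : ∀ p, 3 ≤ p → p < N4 Γ → (2 ≤ la p ∧ rb Γ nw p = 2 + lv Γ nw p) ∨
      (la p < 2 ∧ rb Γ nw p = 2 + 2 * B4 Γ nw - lv Γ nw p) := by
    intro p hp hpN
    rcases Nat.lt_or_ge (la p) 2 with hl | hl
    · exact Or.inr ⟨hl, rb4_lo Γ nw p hp hpN hl⟩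
    · exact Or.inl ⟨hl, rb4_up Γ nw p hp hpN hl⟩
  -- wires and labels
  have hw : ∀ p, 3 ≤ p → p < N4 Γ → (2 ≤ la p ↔ 2 * Γ.length ≤ wi Γ nw (gr p - 1) (la p)) := by
    intro p hp hpN
    have hj := (P3 Γ p hp).1 hpN
    obtain ⟨W1, W2, W3, W4, W5, -⟩ := hW (gr p - 1) hj
    obtain ⟨-, hla, -⟩ := P2 p hp
    have w0 := W1 0 (by omega)
    have w2 := W1 2 (by omega)
    have w3 := W1 3 (by omega)
    have w4 := W1 4 (by omega)
    simp only [Nat.reduceAdd] at w0 w2 w3 w4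
    interval_cases hh : la p
    · omega
    · omega
    · omega
    · omega
    · omega
    · omega
  refine ⟨?_, ?_, eN, e1, ?_, ?_, ?_⟩
  · -- injectivity
    have key : ∀ i, i ≤ N4 Γ + 1 → (i = 0 ∧ rb Γ nw i = 3 + 2 * B4 Γ nw) ∨
        (i = 1 ∧ rb Γ nw i = 1) ∨ (i = 2 ∧ rb Γ nw i = 2 + 2 * B4 Γ nw) ∨
        (i = N4 Γ ∧ rb Γ nw i = 0) ∨ (i = N4 Γ + 1 ∧ rb Γ nw i = 4 + 2 * B4 Γ nw) ∨
        (3 ≤ i ∧ i < N4 Γ) := by
      intro i hi
      by_cases h0 : i = 0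
      · exact Or.inl ⟨h0, by rw [h0]; exact e0⟩
      by_cases h1 : i = 1
      · exact Or.inr (Or.inl ⟨h1, by rw [h1]; exact e1⟩)
      by_cases h2 : i = 2
      · exact Or.inr (Or.inr (Or.inl ⟨h2, by rw [h2]; exact e2⟩))
      by_cases h4 : i = N4 Γ
      · exact Or.inr (Or.inr (Or.inr (Or.inl ⟨h4, by rw [h4]; exact eN⟩)))
      by_cases h5 : i = N4 Γ + 1
      · exact Or.inr (Or.inr (Or.inr (Or.inr (Or.inl ⟨h5, by rw [h5]; exact eN1⟩))))
      · exact Or.inr (Or.inr (Or.inr (Or.inr (Or.inr ⟨by omega, by omega⟩))))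
    intro i j hi hj hij
    rcases key i hi with ⟨a, b⟩ | ⟨a, b⟩ | ⟨a, b⟩ | ⟨a, b⟩ | ⟨a, b⟩ | ⟨a, b⟩ <;>
    rcases key j hj with ⟨a', b'⟩ | ⟨a', b'⟩ | ⟨a', b'⟩ | ⟨a', b'⟩ | ⟨a', b'⟩ | ⟨a', b'⟩
    all_goals first
      | omega
      | (have hbi := hb i a b
         rcases hs i a b with ⟨s1, s2⟩ | ⟨s1, s2⟩ <;> omega)
      | (have hbj := hb j a' b'
         rcases hs j a' b' with ⟨s1, s2⟩ | ⟨s1, s2⟩ <;> omega)
      | (have hbi := hb i a b
         have hbj := hb j a' b'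
         have hinj := L4 i j (by omega) (by omega) b b'
         rcases hs i a b with ⟨s1, s2⟩ | ⟨s1, s2⟩ <;>
         rcases hs j a' b' with ⟨s1', s2'⟩ | ⟨s1', s2'⟩
         · exact hinj (by omega)
         · omega
         · omega
         · exact hinj (by omega))
  · intro i hi
    rw [eN1]
    by_cases h0 : i = 0
    · rw [h0, e0]; omega
    by_cases h1 : i = 1
    · rw [h1, e1]; omega
    by_cases h2 : i = 2
    · rw [h2, e2]; omega
    by_cases h4 : i = N4 Γ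
    · rw [h4, eN]; omega
    · have hbi := hb i (by omega) (by omega)
      rcases hs i (by omega) (by omega) with ⟨s1, s2⟩ | ⟨s1, s2⟩ <;> omega
  · intro i hi hi1
    by_cases h0 : i = 0
    · rw [h0, e0]; omega
    by_cases h2 : i = 2
    · rw [h2, e2]; omega
    · have hbi := hb i (by omega) (by omega)
      rcases hs i (by omega) (by omega) with ⟨s1, s2⟩ | ⟨s1, s2⟩ <;> omega
  · rintro p q r hp hq hr hpN hqN hrN hpq hqr ⟨c1, c2⟩
    have hq0 : q ≠ 0 := by
      intro e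
      rw [e] at hqr
      by_cases h0 : r = 0
      · rw [h0] at hqr; omega
      · have := L1 r hrN h0; omega
    have hq2 : q ≠ 2 := by
      intro e
      rw [e, L3] at hpq; omega
    have hq3 : 3 ≤ q := by omega
    have hbq := hb q hq3 hqN
    rcases hs q hq3 hqN with ⟨s1, s2⟩ | ⟨s1, s2⟩
    · by_cases h0 : r = 0
      · rw [h0, e0] at c2; omega
      have hr2 : r ≠ 2 := by
        intro e; rw [e, L3] at hqr; omega
      have hr3 : 3 ≤ r := by omega
      have hwr : ¬ wi Γ nw (gr r - 1) (la r) < wi Γ nw (gr q - 1) (la q) := by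
        intro hlt
        have := L6 r q hr3 hq3 hrN hqN hlt
        omega
      have hlr : 2 ≤ la r := by
        rw [hw r hr3 hrN]
        have := (hw q hq3 hqN).1 s1
        omega
      have := rb4_up Γ nw r hr3 hrN hlr
      omega
    · by_cases h2 : p = 2
      · rw [h2, e2] at c1; omega
      have hp0 : p ≠ 0 := by
        intro e
        rw [e] at hpq
        have := L1 q hqN hq0
        omega
      have hp3 : 3 ≤ p := by omega
      have hwp : ¬ wi Γ nw (gr q - 1) (la q) < wi Γ nw (gr p - 1) (la p) := by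
        intro hlt
        have := L6 q p hq3 hp3 hqN hpN hlt
        omega
      have hlp : la p < 2 := by
        by_contra hh
        have h5 := (hw p hp3 hpN).1 (by omega)
        have h6 := (hw q hq3 hqN).2 (by omega)
        omega
      have := rb4_lo Γ nw p hp3 hpN hlp
      omega
  · intro p q hp hq hpN hqN hg
    have hbp := hb p hp hpN
    have hbq := hb q hq hqN
    obtain ⟨-, lap, -⟩ := P2 p hp
    obtain ⟨-, laq, -⟩ := P2 q hq
    have h1 : la p < la q → lv Γ nw p < lv Γ nw q := by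
      intro h
      exact L5 p q hp ((P5 p q hp hg).2 h) hqN hg
    have h2 : la q < la p → lv Γ nw q < lv Γ nw p := by
      intro h
      exact L5 q p hq ((P5 q p hq hg.symm).2 h) hpN hg.symm
    have h3 : la p = la q → lv Γ nw p = lv Γ nw q := by
      intro h
      have h4 : ¬ p < q := by rw [P5 p q hp hg]; omega
      have h5 : ¬ q < p := by rw [P5 q p hq hg.symm]; omega
      have h6 : p = q := by omega
      rw [h6]
    have sp := hs p hp hpN
    have sq := hs q hq hqN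
    have key : ∀ a, a < 6 → (2 ≤ a ∧ [5, 4, 0, 1, 2, 3].getD a 0 = a - 2) ∨
        (a < 2 ∧ [5, 4, 0, 1, 2, 3].getD a 0 = 5 - a) := by decide
    rcases key (la p) lap with ⟨k1, k2⟩ | ⟨k1, k2⟩ <;>
    rcases key (la q) laq with ⟨k1', k2'⟩ | ⟨k1', k2'⟩ <;> rw [k2, k2'] <;> omega

end Pool.Agent.Helper54.S4
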